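import Pool.Agent.Y75.Hk.Six

/-!
# The Dennis trace `K_n(K[Γ]) → HH_n(K[Γ])`, `n ≥ 1`, has rational values at the identity

`K` is any field of characteristic zero and `Γ` any group.  Let `z` be any cycle of degree
`n + 1 ≥ 1` in the bar complex (coefficients `ℤ`) of the group of invertible matrices over `K[Γ]`;
every class of `K_{n+1}(K[Γ])` gives such a `z` by the Hurewicz map
`K_{n+1}(K[Γ]) → H_{n+1}(GL(K[Γ]); ℤ)`.  Its Dennis trace is a class in
`HH_{n+1}(K[Γ]) = ⨁_{[g]} H_{n+1}(C_Γ(g); K)`.  We show that at the component of the identity,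
`H_{n+1}(Γ; K)`, this class pairs with integral cohomology classes to *rational* numbers, and that
at the components of the elements of order dividing `m` the values are in the field `ℚ(ζ_m)`.
-/

set_option autoImplicit false

namespace Pool.Agent.Results.MP_c052b4_al.CyclotomicDennisTrace

open Pool.Agent.W644.HK

universe u v w x y

/-- Let `K` be a field of characteristic `0`, `Γ` a group, `z` a cycle of degree `n + 1` in the bar
complex of the group of invertible `r × r` matrices over `K[Γ]` and `f` a Hochschild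
`(n+1)`-cocycle on `Γ` with values in `ℤ[1/N]` (for example in `ℤ`).

(1) If `f` vanishes on the tuples whose product `u` does not satisfy `u ^ m = 1`, then the value of
`f` on the Dennis trace of `z` lies in `ℚ(ζ)`, for every primitive `m`-th root of unity `ζ` in an
extension field of `K`.

(2) If `f` vanishes on the tuples whose product is not `1`, then this value is rational.

(3) If `Γ` is torsion-free and linear over some field of characteristic `0`, then the value is
rational for all `f`. -/
theorem result (K : Type u) [Field K] [CharZero K] (Γ : Type v) [Group Γ]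
    (r : Type w) [Fintype r] [DecidableEq r] (n : ℕ)
    (z : (Fin (n + 1) → (Matrix r r (MonoidAlgebra K Γ))ˣ) →₀ ℤ) (hz : barBoundary z = 0)
    (N : ℕ) (hN : 0 < N)
    (f : (Fin (n + 2) → Γ) → ℚ) (hfN : ∀ g, ∃ (k : ℕ) (a : ℤ), f g * (N : ℚ) ^ k = a)
    (hf : IsHochschildCocycle f) :
    (∀ m : ℕ, 0 < m → (∀ g : Fin (n + 2) → Γ, (List.ofFn g).prod ^ m ≠ 1 → f g = 0) →
      ∀ (L : Type x) [Field L] [CharZero L] [Algebra K L] (ζ : L), IsPrimitiveRoot ζ m →
        algebraMap K L (dennis (fun g => ((f g : ℚ) : K)) z) ∈ IntermediateField.adjoin ℚ {ζ}) ∧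
    ((∀ g : Fin (n + 2) → Γ, (List.ofFn g).prod ≠ 1 → f g = 0) →
      ∃ q : ℚ, dennis (fun g => ((f g : ℚ) : K)) z = q) ∧
    ((∀ (g : Γ) (m : ℕ), 0 < m → g ^ m = 1 → g = 1) →
      (∃ (L : Type y) (_ : Field L) (_ : CharZero L) (d : ℕ) (φ : Γ →* GL (Fin d) L),
        Function.Injective φ) →
      ∃ q : ℚ, dennis (fun g => ((f g : ℚ) : K)) z = q) := by
  refine ⟨fun m hm hfm L _ _ _ ζ hζ =>
      Pool.Agent.Y75.Hk.dennis_cyclotomic z hz m hm N hN f hfN hf hfm ζ hζ,
    fun hfm => Pool.Agent.Y75.Hk.dennis_rational z hz N hN f hfN hf hfm, ?_⟩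
  rintro htf ⟨L, iL, iC, d, φ, hφ⟩
  refine Pool.Agent.Y75.Hk.dennis_rational_linear ?_ htf z hz N hN f hfN hf
  intro H hH
  have hbad := linear_good φ hφ H hH
  refine (Nat.infinite_setOfPred_prime.sdiff hbad).mono ?_
  rintro p ⟨hp, hgood⟩
  refine ⟨hp, ?_⟩
  by_contra hcon
  exact hgood ⟨hp, hcon⟩

end Pool.Agent.Results.MP_c052b4_al.CyclotomicDennisTrace
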