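import Pool.Agent.Y72.Kd.Lin
import Pool.Agent.Y72.Kd.DetKd

/-!
# Determinants of `K₁(K[Γ])` up to algebraic numbers, `K` a field of characteristic zero

Let `Γ` be a torsion-free group which is linear over some field (of any characteristic), or a group
all of whose finitely generated subgroups `H` have the following property: for almost all primes
`l` the `l`-th roots in `H` are unique, and every `c ≠ 1` in `H` is an `l`-th power in `H` for
finitely many primes `l` only.  Let `A` be an invertible matrix over `K[Γ]`.  There is a `γ` in `Γ`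
such that for every representation `ρ` of `Γ` over every extension field of `K` the determinant of
`A` in `ρ` is `(det ε(A)) ^ dim ρ * det ρ(γ)`, up to a factor algebraic over `ℚ`.
-/

set_option autoImplicit false

namespace Pool.Agent.Results.MP_c052b4_al.DeterminantsOverFields

open Pool.Agent.Y72.Kd

universe t u v w

theorem result {Γ : Type u} [Group Γ]
    (hΓ : ((∀ g : Γ, ∀ m : ℕ, 0 < m → g ^ m = 1 → g = 1) ∧
        ∃ (F : Type t) (_ : Field F) (N : ℕ) (φ : Γ →* GL (Fin N) F), Function.Injective φ) ∨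
      ∀ H : Subgroup Γ, H.FG →
        (∃ N : ℕ, ∀ l : ℕ, l.Prime → N < l → ∀ x ∈ H, ∀ y ∈ H, x ^ l = y ^ l → x = y) ∧
        ∀ c ∈ H, c ≠ 1 → {l : ℕ | l.Prime ∧ ∃ x ∈ H, x ^ l = c}.Finite)
    {K : Type v} [Field K] [CharZero K] {n : ℕ}
    (A : (Matrix (Fin n) (Fin n) (MonoidAlgebra K Γ))ˣ) :
    ∃ γ : Γ, ∀ (L : Type w) [Field L] [CharZero L] (ι : K →+* L) (d : ℕ)
      (ρ : Γ →* GL (Fin d) L), ∃ α : L, α ≠ 0 ∧ IsAlgebraic ℚ α ∧
      (Matrix.of fun x y : Fin n × Fin d =>
        (A.val x.1 y.1).coeff.sum fun g a => ι a * (ρ g).val x.2 y.2).det =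
        α * ι (Matrix.of fun i j => (A.val i j).coeff.sum fun _ a => a).det ^ d *
          (ρ γ).val.det := by
  apply det_kd
  intro S
  have hS : (Subgroup.closure (S : Set Γ)).FG := ⟨S, rfl⟩
  rcases hΓ with ⟨htf, F, _, N, φ, hφ⟩ | h
  · haveI : Group.FG (Subgroup.closure (S : Set Γ)) := (Group.fg_iff_subgroup_fg _).2 hS
    refine rt_linear ?_ (φ.comp (Subgroup.closure (S : Set Γ)).subtype)
      (hφ.comp (Subgroup.closure (S : Set Γ)).subtype_injective)
    intro g m hm hg
    apply Subtype.ext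
    exact htf g.1 m hm (by simpa using congrArg Subtype.val hg)
  · obtain ⟨⟨N, hN⟩, h2⟩ := h _ hS
    refine ⟨⟨N, fun l hl hNl x y hxy => ?_⟩, fun c hc => ?_⟩
    · apply Subtype.ext
      exact hN l hl hNl x.1 x.2 y.1 y.2 (by simpa using congrArg Subtype.val hxy)
    · refine (h2 c.1 c.2 (fun h0 => hc (Subtype.ext h0))).subset ?_
      rintro l ⟨hl, x, hx⟩
      exact ⟨hl, x.1, x.2, by simpa using congrArg Subtype.val hx⟩

end Pool.Agent.Results.MP_c052b4_al.DeterminantsOverFields
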