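import Pool.Agent.Y477.IW.UKey
import Pool.Agent.Y477.IW.GP

/-!
Let the group `Γ` act on a group `N` and on a set `X` with finite point stabilizers, and let `e_S`
(`S ⊆ X`) be compatible retractions of `N` (for instance, `N` the graph product of copies of any
group over an invariant graph with vertex set `X`). For every ring `R` and `K(G) = K₁(R[G])`: the
coinvariants of `K(N)` embed in `K(N ⋊ Γ)` modulo `K(Γ)` up to the orders of the finite subgroups of
`Γ`; for torsion-free `Γ` the parts of `K(N)` belonging to different orbits of finite subsets of `X`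
are independent in `K(N ⋊ Γ)`; and the kernel of every natural transformation from a functor `H` to
`K` is generated by the kernels for `Γ` and for the parts of `N`.
-/

namespace Pool.Agent.Results.MP_c052b4_al.EquivariantRetractions

open Pool.Agent.Y477.IW CategoryTheory

theorem result (Γ X : Type) [Group Γ] [MulAction Γ X]
    (hst : ∀ v : X, Finite (MulAction.stabilizer Γ v)) :
    (∀ (R : Type) [Ring R] (N : Type) [Group N] (φ : Γ →* MulAut N)
      (us : USupp φ X) (m : ℕ), (∀ K : Subgroup Γ, Finite K → Nat.card K ∣ m) →
      CoinvariantsEmbed (kgr R) φ m ∧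
      ((∀ g : Γ, g ≠ 1 → ¬ IsOfFinOrder g) → OrbitsIndependent (kgr R) us) ∧
      KernelFormulaOver (kgr R) us m) ∧
    ∀ (P : Type) [Group P] (Λ : SimpleGraph X),
      (∀ (γ : Γ) (u v : X), Λ.Adj u v → Λ.Adj (γ • u) (γ • v)) → HasRetractions Γ P Λ :=
  ⟨fun _ _ _ _ _ us m hm => us_k us hst m hm,
    fun P _ Λ hΛ => hasRetractions Γ P Λ hΛ⟩

end Pool.Agent.Results.MP_c052b4_al.EquivariantRetractions
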