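import Mathlib
import Pool.Agent.Y35.KC.Od

/-!
# Higher odd Chern characters of `K₁(R[G])`

Let `R` be a commutative ring, `G` a group, `u` an invertible matrix over `R[G]` with inverse `v`.
The component of the odd Chern character of the class of `u` in `K₁(R[G])` at the conjugacy class of
`g ∈ G` is in degree `2 k + 1` a homology class, with coefficients in `R`, of the centralizer of `g`
modulo `⟨g⟩`, which we pair with the alternating homogeneous cocycles `c` of degree `2 k + 1` on `G`
which are invariant under the centralizer of `g`, and under `g` in each single variable. For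
torsion-free `G` and regular `R` the Farrell-Jones conjecture says that `K₁(R[G])` is assembled from
the `K₁(R)` and `K₀(R) ⊗ G`; then the numbers are zero for `g = 1`, `k ≥ 1` and for all `g ≠ 1`,
`k ≥ 0`. We prove this, without assuming that `R` is regular, for `g = 1` (more generally for the
elements of finite order, if the torsion of `G` is invertible in `R`), up to the factor `k!`, and,
for fields of characteristic zero, for the elements whose conjugates have bounded `p`-height, for
infinitely many primes `p`, in a subgroup containing the supports; the values of `c` are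
supposed to lie in a finitely generated module over a finitely generated subring.
-/

set_option autoImplicit false

namespace Pool.Agent.Results.MP_c052b4_al.HigherOddChern

universe u1 u2 u3 u4

/-- An alternating homogeneous cocycle `c` of degree `n` on `G` with values in `M` which is invariant
under left multiplication of all variables by elements of the centralizer of `g`, and under left
multiplication of a single variable by `g`. -/
structure IsClassCocycle {G : Type u1} [Group G] {M : Type u3} [AddCommGroup M] (g : G) {n : ℕ}
    (c : (Fin (n + 1) → G) → M) : Prop where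
  perm : ∀ (v : Fin (n + 1) → G) (σ : Equiv.Perm (Fin (n + 1))),
    c (v ∘ σ) = ((Equiv.Perm.sign σ : ℤˣ) : ℤ) • c v
  rep : ∀ (v : Fin (n + 1) → G) (i j : Fin (n + 1)), i ≠ j → v i = v j → c v = 0
  left : ∀ z : G, z * g = g * z → ∀ v : Fin (n + 1) → G, c (fun i => z * v i) = c v
  single : ∀ (v : Fin (n + 1) → G) (i : Fin (n + 1)), c (Function.update v i (g * v i)) = c v
  closed : ∀ v : Fin (n + 2) → G, ∑ i : Fin (n + 2), (-1 : ℤ) ^ (i : ℕ) • c (v ∘ i.succAbove) = 0

/-- The values of `c` lie in the module generated by a finite set `F` over the subring generated by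
a finite subset `s` of `R`. -/
def FinGenValues (R : Type u2) [CommRing R] {M : Type u3} [AddCommGroup M] [Module R M]
    {X : Type u1} (c : X → M) : Prop :=
  ∃ (s : Finset R) (F : Finset M),
    ∀ v, c v ∈ Submodule.span (Algebra.adjoin ℤ (s : Set R)) (F : Set M)

open Classical in
/-- The pairing of the component at the class of `g` of the odd Chern character of `u`, with inverse
`v`, with `c`: the sum over all `w = (w₀, …, w_n)` whose product `y` is conjugate to `g`,
`g = t y t⁻¹`, of `tr (v_{w₀} u_{w₁} v_{w₂} ⋯) c (t, t w₀, t w₀ w₁, …, t w₀ ⋯ w_{n-1})`, where `u_s`,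
`v_s` are the matrices of the coefficients of `u`, `v` at `s`. -/
noncomputable def oddNumber {G : Type u1} [Group G] {R : Type u2} [CommRing R] {M : Type u3}
    [AddCommGroup M] [Module R M] {d : Type u4} [Fintype d] [DecidableEq d] (g : G) (t : G → G)
    {n : ℕ} (c : (Fin (n + 1) → G) → M) (v u : Matrix d d (MonoidAlgebra R G)) : M :=
  ∑ᶠ w : Fin (n + 1) → G, if IsConj (List.ofFn w).prod g then
    (List.ofFn fun i : Fin (n + 1) => if Even (i : ℕ) then v.map fun x => x.coeff (w i) else
      u.map fun x => x.coeff (w i)).prod.trace •
      (c fun i => t (List.ofFn w).prod * ((List.ofFn w).take i).prod) else 0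

/-- `u`, `v` are inverse matrices over `R[G]`, `t y * y * (t y)⁻¹ = g` for all `y` conjugate to `g`,
`c` is a cocycle of degree `2 k + 1` for `g` with finitely generated values.

(1) `k!` times the number is zero if `g` has finite order, `k ≥ 1` and the primes which are orders
of elements of `G` lie in a finite set of primes which are invertible in `R` (for example, if
`G` is torsion-free and `g = 1`), for every commutative ring `R`.

(2) If `R` is a field of characteristic zero, then the number is zero if `g` has finite order,
`k ≥ 1` and infinitely many primes are not the order of an element of `G`; or if for infinitely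
many primes `p` there is `b` such that no conjugate of `g` which lies in the subgroup `H`,
which contains the supports of `u` and `v`, is a `p ^ (b + 1)`-th power in `H`. -/
theorem result :
    (∀ (G : Type u1) [Group G] (R : Type u2) [CommRing R] (M : Type u3) [AddCommGroup M]
      [Module R M] (d : Type u4) [Fintype d] [DecidableEq d]
      (v u : Matrix d d (MonoidAlgebra R G)), v * u = 1 → u * v = 1 →
      ∀ (g : G) (t : G → G), (∀ y, IsConj y g → t y * y * (t y)⁻¹ = g) →
      ∀ (k : ℕ) (c : (Fin (2 * k + 1 + 1) → G) → M), IsClassCocycle g c → FinGenValues R c →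
      IsOfFinOrder g → 1 ≤ k →
      ∀ P : Finset ℕ, (∀ p ∈ P, IsUnit (p : R)) →
        (∀ p : ℕ, p.Prime → ∀ y : G, orderOf y = p → p ∈ P) →
      k.factorial • oddNumber g t c v u = 0) ∧
    ∀ (G : Type u1) [Group G] (K : Type u2) [Field K] [CharZero K] (M : Type u3)
      [AddCommGroup M] [Module K M] (d : Type u4) [Fintype d] [DecidableEq d]
      (v u : Matrix d d (MonoidAlgebra K G)), v * u = 1 → u * v = 1 →
      ∀ (g : G) (t : G → G), (∀ y, IsConj y g → t y * y * (t y)⁻¹ = g) →
      ∀ (k : ℕ) (c : (Fin (2 * k + 1 + 1) → G) → M), IsClassCocycle g c → FinGenValues K c →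
      ((IsOfFinOrder g ∧ 1 ≤ k ∧ {p : ℕ | p.Prime ∧ ∀ y : G, orderOf y ≠ p}.Infinite) ∨
        ∃ H : Subgroup G, (∀ i j s, (v i j).coeff s ≠ 0 → s ∈ H) ∧
          (∀ i j s, (u i j).coeff s ≠ 0 → s ∈ H) ∧
          {p : ℕ | p.Prime ∧ ∃ b : ℕ, ∀ y ∈ H, IsConj y g → ∀ x ∈ H,
            x ^ p ^ (b + 1) ≠ y}.Infinite) →
      oddNumber g t c v u = 0 := by
  refine ⟨?_, ?_⟩
  · intro G _ R _ M _ _ d _ _ v u hvu huv g t ht k c hc hv hg hk P hP hGP
    exact Pool.Agent.Y35.KC.od_zero v u hvu huv hg ht (by omega)
      ⟨hc.perm, hc.rep, hc.left, hc.single, hc.closed⟩ hv P hP hGP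
  · intro G _ K _ _ M _ _ d _ _ v u hvu huv g t ht k c hc hv h
    have hc' : Pool.Agent.W647.HX1.IsClassCoc g c :=
      ⟨hc.perm, hc.rep, hc.left, hc.single, hc.closed⟩
    rcases h with ⟨hg, hk, hQ⟩ | ⟨H, hvH, huH, hQ⟩
    · exact Pool.Agent.Y35.KC.od_field v u hvu huv hg ht (by omega) hc' hv hQ
    · exact Pool.Agent.Y35.KC.od_height_field v u hvu huv H hvH huH ht hc' hv hQ

end Pool.Agent.Results.MP_c052b4_al.HigherOddChern
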